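import Pool.Agent.Run7.h716.ZW.Defs

/-!
# Project ZW (helper716): the piece ASM2
-/

set_option autoImplicit false

namespace Pool.Agent.Run7.h957.ZW

open Polynomial Run7.h716.ZW

theorem t_ASM2 : S_ASM1 → S_RAT → S_POLY → S_SEQ := by
  classical
  intro hasm hrat hpoly C R
  have hA : ∀ c : ℤ →₀ ℤ, ∃ (A : ℝ[X]) (i : ℤ), c ≠ 0 → (A.coeff 0 ≠ 0 ∧
      ∀ (F : ℤ → ℝ) (k : ℤ), lfR c F k = ap A F (k + i)) := by
    intro c
    by_cases hc : c = 0
    · exact ⟨0, 0, fun h => absurd hc h⟩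
    · obtain ⟨A, i, h1, h2⟩ := hpoly c hc
      exact ⟨A, i, fun _ => ⟨h1, h2⟩⟩
  choose A i hAi using hA
  obtain ⟨L, hL⟩ : ∃ L : Finset ℝ[X], L = (C.filter fun c => c ≠ 0).image A := ⟨_, rfl⟩
  obtain ⟨F, hF⟩ := hasm (L.sup natDegree + 1) L R (by
    intro B hB
    refine ⟨?_, Nat.lt_succ_of_le (Finset.le_sup (f := natDegree) hB)⟩
    rw [hL] at hB
    obtain ⟨c, hc, rfl⟩ := Finset.mem_image.mp hB
    exact (hAi c (Finset.mem_filter.mp hc).2).1) none none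
    (fun x hx => absurd hx (by simp)) (fun x hx => absurd hx (by simp))
    (fun x y hx => absurd hx (by simp))
  obtain ⟨K, hK⟩ : ∃ K : ℤ, ∀ k < K, F k = 0 := hF.lft
  obtain ⟨K', hK'⟩ : ∃ K : ℤ, ∀ k > K, F k = 0 := hF.rgt
  obtain ⟨G, hG⟩ : ∃ G : ℤ →₀ ℝ, ∀ k, G k = F k := by
    refine ⟨Finsupp.onFinset (Finset.Icc K K') F ?_, fun k => rfl⟩
    intro k hk
    rw [Finset.mem_Icc]
    refine ⟨?_, ?_⟩
    · by_contra h
      exact hk (hK k (not_le.mp h))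
    · by_contra h
      exact hk (hK' k (not_le.mp h))
  have hGF : (G : ℤ → ℝ) = F := funext hG
  obtain ⟨k₀, hk₀⟩ := hF.pos
  have hG0 : G ≠ 0 := by
    intro h
    rw [← hG k₀, h, Finsupp.coe_zero, Pi.zero_apply] at hk₀
    exact lt_irrefl _ hk₀
  obtain ⟨F', hF', hsgn⟩ := hrat C G hG0
  refine ⟨F', hF', ?_⟩
  intro c hc k k' h1 h2
  by_cases hc0 : c = 0
  · exfalso
    rw [hc0] at h1
    unfold lf at h1
    rw [Finsupp.sum_zero_index] at h1
    exact lt_irrefl _ h1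
  · have h3 := (hsgn c hc k).1 h1
    have h4 := (hsgn c hc k').2 h2
    rw [hGF, (hAi c hc0).2] at h3 h4
    have h5 := hF.sep (A c) (by
      rw [hL]
      exact Finset.mem_image_of_mem A (Finset.mem_filter.mpr ⟨hc, hc0⟩)) _ _ h3 h4
    rwa [add_sub_add_right_eq_sub] at h5

end Pool.Agent.Run7.h957.ZW
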