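import Pool.Agent.Run7.h716.ZW.Defs

/-!
# Project ZW (helper716): the piece PATH
-/

set_option autoImplicit false

namespace Pool.Agent.Run7.h957.ZW

open Polynomial Run7.h716.ZW

theorem ap_zpow (A : ℝ[X]) (b : ℝ) (hb : 0 < b) (k : ℤ) :
    ap A (fun k : ℤ => b ^ k) k = b ^ k * A.eval b := by
  rw [ap_apply, eval_eq_sum_range, Finset.mul_sum]
  refine Finset.sum_congr rfl fun j _ => ?_
  rw [zpow_add₀ hb.ne', zpow_natCast]
  ring

theorem good_const (L : Finset ℝ[X]) (R : ℕ) (b : ℝ) (hb : 0 < b) :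
    Good L R (some b) (some b) (fun k : ℤ => b ^ k) := by
  refine ⟨fun k => (zpow_pos hb k).le, ⟨0, zpow_pos hb 0⟩, ⟨0, 1, one_pos, fun k _ => ?_⟩,
    ⟨0, 1, one_pos, fun k _ => ?_⟩, ?_, ?_, ?_⟩
  · show b ^ k = 1 * b ^ k
    rw [one_mul]
  · show b ^ k = 1 * b ^ k
    rw [one_mul]
  · intro x hx k
    have hx' : b = x := Option.some_injective _ hx
    show b ^ (k + 1) ≤ x * b ^ k
    rw [← hx', zpow_add_one₀ hb.ne', mul_comm]
  · intro x hx k
    have hx' : b = x := Option.some_injective _ hx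
    show x * b ^ k ≤ b ^ (k + 1)
    rw [← hx', zpow_add_one₀ hb.ne', mul_comm]
  · intro A _ k k' h1 h2
    exfalso
    rw [ap_zpow A b hb] at h1 h2
    have h3 : 0 < A.eval b := (mul_pos_iff_of_pos_left (zpow_pos hb k)).mp h1
    have h4 : 0 < b ^ k' * A.eval b := mul_pos (zpow_pos hb k') h3
    linarith

theorem t_PATH : S_CAT → S_PATH := by
  intro hcat L R hloc a b hb hba
  obtain ⟨S, hS⟩ : ∃ S : Set ℝ, S = {x | b ≤ x ∧ x ≤ a ∧ ∃ F, Good L R (some x) (some b) F} :=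
    ⟨_, rfl⟩
  have hmem : ∀ x, x ∈ S ↔ b ≤ x ∧ x ≤ a ∧ ∃ F, Good L R (some x) (some b) F := by
    intro x
    rw [hS]
    exact Iff.rfl
  have hbS : b ∈ S := (hmem b).mpr ⟨le_refl b, hba, _, good_const L R b hb⟩
  have hne : S.Nonempty := ⟨b, hbS⟩
  have hbdd : BddAbove S := ⟨a, fun x hx => ((hmem x).mp hx).2.1⟩
  obtain ⟨s, hs⟩ : ∃ s, s = sSup S := ⟨_, rfl⟩
  have hsle : ∀ x ∈ S, x ≤ s := by
    intro x hx
    rw [hs]
    exact le_csSup hbdd hx
  have hbs : b ≤ s := hsle b hbS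
  have hsa : s ≤ a := by
    rw [hs]
    exact csSup_le hne fun x hx => ((hmem x).mp hx).2.1
  have hs0 : 0 < s := lt_of_lt_of_le hb hbs
  obtain ⟨δ, hδ, h1, h2⟩ := hloc s hs0
  have hsS : ∃ F, Good L R (some s) (some b) F := by
    obtain ⟨y, hy, hys⟩ := exists_lt_of_lt_csSup hne (show s - δ < sSup S by rw [← hs]; linarith)
    obtain ⟨hby, -, hF⟩ := (hmem y).mp hy
    rcases lt_or_eq_of_le (hsle y hy) with h3 | h3
    · have hy0 : 0 < y := lt_of_lt_of_le hb hby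
      exact hcat L R (some s) (some b) y hy0 (h2 y hy0 hys h3) hF
    · rw [← h3]
      exact hF
  rcases lt_or_eq_of_le hsa with h3 | h3
  · exfalso
    obtain ⟨a', ha'⟩ : ∃ a', a' = min a (s + δ / 2) := ⟨_, rfl⟩
    have h4 : s < a' := by
      rw [ha']
      exact lt_min h3 (by linarith)
    have h5 : a' < s + δ := by
      rw [ha']
      exact lt_of_le_of_lt (min_le_right _ _) (by linarith)
    have h6 : a' ≤ a := by
      rw [ha']
      exact min_le_left _ _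
    have h7 : a' ∈ S := (hmem a').mpr ⟨hbs.trans h4.le, h6,
      hcat L R (some a') (some b) s hs0 (h1 a' h4 h5) hsS⟩
    exact absurd (hsle a' h7) (not_le.mpr h4)
  · rw [← h3]
    exact hsS

end Pool.Agent.Run7.h957.ZW
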